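import Pool.Agent.BdO.Main

/-!
MP_7fa120_al: the subgroups of the symmetric groups whose order has a bounded odd part; the negated form of Q1 holds for them.
-/

set_option autoImplicit false

namespace Pool.Agent.Results.MP_7fa120_al.BoundedOddPart

open Filter Topology Pool.Agent.BdO

theorem result (K : ℕ) (hK : 3 ≤ K) :
    (∀ a : ℕ, Tendsto (fun n : ℕ => dens K n (2 ^ a)) atTop (𝓝 1)) ∧
    (∀ m : ℕ, (∀ a : ℕ, m ≠ 2 ^ a) → Tendsto (fun n : ℕ => dens K (2 * n) m) atTop (𝓝 0)) ∧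
    (∀ ε : ℝ, 0 < ε → ∀ᶠ n : ℕ in atTop, n % 4 = 3 → (1 / 4 - ε) * (nB K n : ℝ) ≤ nX K n) ∧
    ∃ r : ℕ, r.Prime ∧ r ≠ 2 ∧ r ≤ K ∧ ¬ ∃ L : ℝ, Tendsto (fun n : ℕ => dens K n r) atTop (𝓝 L) :=
  ⟨dens_two K (by omega), fun m hm => dens_even K (by omega) m hm, fun ε hε => nX_odd K hK ε hε, no_limit K hK⟩

end Pool.Agent.Results.MP_7fa120_al.BoundedOddPart
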